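import Pool.Agent.H528R5.HugeMat

/-!
# Equations of degree four of linear size whose rational solutions are quadruply exponential

If `ℤ` were existentially definable in `ℚ`, then the smallest rational solutions of solvable
polynomial equations would grow faster than every computable function of the size of the equation.
It is shown, without any hypothesis, that they grow at least quadruply exponentially: there are
polynomials with integer coefficients in `C (n + 1)` variables, of degree at most four and with sum
of the absolute values of the coefficients at most `C (n + 1)`, which have rational zeros, but every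
rational zero has a coordinate whose numerator or denominator is at least `2^(2^(2^(2^n)))`.

The same holds for the problem of realizing a configuration of points and lines over `ℚ`: there are
matroids of rank three without loops, with at most `C (n + 1)` elements, representable over `ℚ`, such
that every matrix over `ℚ` (with any number of rows) which represents the matroid has an entry whose
numerator or denominator is at least `2^(2^(2^(2^n)))`.

The proofs are in the starting helper files `Pool.Agent.H528R3` and `Pool.Agent.H528R5`.
-/

set_option autoImplicit false

namespace Pool.Agent.Results.MP_28f2cb_lc.HugeSolutions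

open MvPolynomial

/-- **The smallest rational solutions of equations of linear size can be quadruply exponential.** -/
theorem result :
    -- single equations of degree at most four
    (∃ C : ℕ, ∀ n : ℕ, ∃ p : MvPolynomial (Fin (C * (n + 1))) ℤ,
      p.totalDegree ≤ 4 ∧ ∑ m ∈ p.support, |p.coeff m| ≤ C * (n + 1) ∧
      (∃ x : Fin (C * (n + 1)) → ℚ, aeval x p = 0) ∧
      ∀ x : Fin (C * (n + 1)) → ℚ, aeval x p = 0 →
        ∃ i, 2 ^ (2 ^ (2 ^ (2 ^ n))) ≤ max (x i).num.natAbs (x i).den) ∧
    -- representations of matroids of rank three
    (∃ C : ℕ, ∀ n : ℕ, ∃ (N : ℕ) (M : Matroid (Fin N)),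
      N ≤ C * (n + 1) ∧ M.E = Set.univ ∧ M.eRank = 3 ∧ (∀ e, M.Indep {e}) ∧
      (∃ A : Matrix (Fin 3) (Fin N) ℚ, ∀ I : Set (Fin N),
        M.Indep I ↔ LinearIndependent ℚ (fun j : I => fun i => A i j)) ∧
      ∀ (m : ℕ) (A : Matrix (Fin m) (Fin N) ℚ),
        (∀ I : Set (Fin N), M.Indep I ↔ LinearIndependent ℚ (fun j : I => fun i => A i j)) →
        ∃ i j, 2 ^ (2 ^ (2 ^ (2 ^ n))) ≤ max (A i j).num.natAbs (A i j).den) :=
  ⟨Pool.Agent.H528R3.huge_solutions, Pool.Agent.H528R5.huge_representations⟩

end Pool.Agent.Results.MP_28f2cb_lc.HugeSolutions
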