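import Pool.Agent.W463.H10.Fixed

/-!
# Polynomial equations over the rational numbers in five variables are NP-hard

A definition of `ℤ` in `ℚ` by an existential formula with few quantifiers would make the solvability
of equations over `ℚ` in few variables undecidable. It is shown (unconditionally) that the solvability
in rational numbers of polynomial equations with integer coefficients is `NP`-hard already for
equations of degree at most `4` in `9` variables, and for equations of degree at most `32` in `5`
variables. So sets which are defined by one equation in four or eight variables besides the parameters
(the coefficients) can express every problem in `NP`.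

A polynomial is given by the list of its terms, a term by its coefficient (in binary) and the list of
the indices of its variables.

Proof (the starting helper files `Pool.Agent.H528R3.FD` and `Pool.Agent.W463.H10`): the colourability
of graphs by three colours is expressed by conditions at primes `t` which are inert in `ℚ(√2)` on the
value `f(x)` of a polynomial `f` of degree `8` at the first coordinate of a rational point of the
elliptic curve `y ^ 2 = x ^ 3 - 2 x ^ 2 + 65 x`, and all these conditions are combined in one
equation `a ^ 2 - 2 b ^ 2 + 2 N w ^ 2 = N ^ 2 + N f(x) ^ 2`.
-/

set_option autoImplicit false

namespace Pool.Agent.Results.MP_28f2cb_lc.NPHardFiveVariables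

open Pool.Agent.NPC Pool.Agent.W463.H10

/-- `Bd d n p`: all terms of `p` have degree at most `d`, and only the variables `x₀, …, x_{n-1}` occur
in `p`; `RatZero p`: the polynomial `p` has a rational zero. -/
theorem result :
    NPHardP (fun p : List (ℤ × List ℕ) => Bd 4 9 p ∧ RatZero p) ∧
    NPHardP (fun p : List (ℤ × List ℕ) => Bd 32 5 p ∧ RatZero p) :=
  ⟨hard_nine, hard_five⟩

end Pool.Agent.Results.MP_28f2cb_lc.NPHardFiveVariables
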