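import Pool.Agent.H528R2.Final

/-!
# Existential formulas over the rational numbers express all of nondeterministic exponential time

If `ℤ` were existentially definable in `ℚ`, the solvability of polynomial equations over `ℚ` would be
undecidable. It is shown (unconditionally) that equations over `ℚ` of degree at most four express
every language `L` in `NEXP`: there are polynomials `t w`, with integer coefficients, of degree at
most four, computable in polynomial time from `w`, such that `w ∈ L` if and only if `t w = 0` has a
rational solution. So the solvability over `ℚ` of one equation of degree at most four is `NEXP`-hard,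
and it is neither in `NP` nor in `coNP`.

The proof is in the starting helper files `Pool.Agent.H528R2`.
-/

set_option autoImplicit false

namespace Pool.Agent.Results.MP_28f2cb_lc.NexpHardness

open Pool.Agent.NPC Pool.Agent.NPC.H573Q Pool.Agent.NPC.ER Pool.Agent.NPC.H612 Pool.Agent.H528R2

/-- The formula `φ` is an equation `t = 0` with a polynomial `t` with integer coefficients of degree
at most four, and it has a solution in `ℚ`. -/
def QuarticSolvable (φ : QFm) : Prop :=
  ∃ t : ER.Tm, tdeg t ≤ 4 ∧ φ = QFm.eq t .zero ∧ ∃ x : ℕ → ℚ, evalQ x t = 0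

/-- **Equations of degree at most four over `ℚ` express `NEXP`.** -/
theorem result :
    (∀ L : Set (List Bool), InNEXP L → ∃ t : List Bool → ER.Tm, (∀ w, tdeg (t w) ≤ 4) ∧
      PolyTime (fun w => bits (QFm.eq (t w) .zero)) ∧
      ∀ w, w ∈ L ↔ ∃ x : ℕ → ℚ, evalQ x (t w) = 0) ∧
    NEXPHard (lang QuarticSolvable) ∧
    ¬ InNP (lang QuarticSolvable) ∧ ¬ InCoNP (lang QuarticSolvable) := by
  have h0 : ∀ t : ER.Tm, ETQ (QFm.eq t .zero) ↔ ∃ x : ℕ → ℚ, evalQ x t = 0 := fun t => Iff.rfl
  have h1 : NEXPHard (lang QuarticSolvable) := by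
    intro L hL
    obtain ⟨t, h1, h2, h3⟩ := quartic_hard hL
    refine ⟨_, h2, fun w => ?_⟩
    rw [h3 w, h0]
    constructor
    · intro h
      exact ⟨_, rfl, t w, h1 w, rfl, h⟩
    · rintro ⟨a, ha, s, -, rfl, hs⟩
      have h4 := bits_injective ha
      injection h4 with h5 h6
      rw [← h5]
      exact hs
  refine ⟨fun L hL => ?_, h1, h1.not_inNP, h1.not_inCoNP⟩
  obtain ⟨t, h1, h2, h3⟩ := quartic_hard hL
  exact ⟨t, h1, h2, fun w => (h3 w).trans (h0 _)⟩

end Pool.Agent.Results.MP_28f2cb_lc.NexpHardness
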