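import Pool.Agent.TH588.UQ.Main

/-!
# Undecidability over the rational numbers with one universal quantifier

If `ℤ` were existentially definable in `ℚ`, it would be undecidable whether a polynomial equation has
a rational solution, that is, the sentences `∀ x, F(x) ≠ 0` and `∃ x, F(x) = 0` about `ℚ` would be
undecidable. It is shown that the sentences `∀ t, ∃ x₁ … x_n, F(a, t, x) = 0` are undecidable: one
universal quantifier in front is enough, for one polynomial `F` of degree at most four with integer
coefficients and a natural number `a` as a parameter.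

The following is proved. Every recursively enumerable set `P` of natural numbers is reducible to the
set of all `a` such that `∃ t, ∀ x, F(a, t, x) ≠ 0` holds in `ℚ`, by a computable function `g`; if `a`
is in `P`, then there are such `t` for `g a` in every interval, and also some squarefree natural
number; if `a` is not in `P`, there is none.

The proof is in the starting helper files `Pool.Agent.TH588.UQ` (the halting problem of generalised
Collatz maps is expressed by congruences between powers, and the relations between them by means of the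
definitions in `Pool.Agent.H528R3`, of Robinson, Poonen and Koenigsmann).
-/

set_option autoImplicit false

namespace Pool.Agent.Results.MP_28f2cb_lc.OneUniversalQuantifier

open Nat.Partrec (Code)

/-- the halting problem, for the numbers of programs -/
theorem re_halt : REPred (fun a : ℕ => (Code.eval (Denumerable.ofNat Code a) 0).Dom) := by
  have h : Partrec fun a : ℕ => (Code.eval (Denumerable.ofNat Code a) 0) :=
    Code.eval_part.comp (Computable.ofNat Code) (Computable.const 0)
  have h2 := h.dom_re
  exact h2

theorem not_computable : ¬ ComputablePred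
    (fun a : ℕ => (Code.eval (Denumerable.ofNat Code a) 0).Dom) := by
  intro h
  apply ComputablePred.halting_problem 0
  have h1 := ComputablePred.computable_of_manyOneReducible
    (ManyOneReducible.mk (f := fun c : Code => Encodable.encode c) _ Computable.encode) h
  refine h1.of_eq fun c => ?_
  simp

/-- One polynomial `F` of degree at most four with integer coefficients in two variables `a`, `t` and
`n` variables `x`; all quantifiers over `t` and `x` range over `ℚ`. -/
theorem result : ∃ (n : ℕ) (F : MvPolynomial (Fin 2 ⊕ Fin n) ℤ), F.totalDegree ≤ 4 ∧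
    -- every recursively enumerable set is reducible to the sentences `∃ t, ∀ x, F(a, t, x) ≠ 0`
    (∀ P : ℕ → Prop, REPred P → ∃ g : ℕ → ℕ, Computable g ∧
      (∀ a : ℕ, P a ↔ ∃ t : ℚ, ∀ x : Fin n → ℚ,
        MvPolynomial.aeval (Sum.elim ![(g a : ℚ), t] x) F ≠ 0) ∧
      -- moreover, there are such `t` in every interval, and some squarefree natural number
      ∀ a : ℕ, P a →
        (∃ t : ℕ, Squarefree t ∧ ∀ x : Fin n → ℚ,
          MvPolynomial.aeval (Sum.elim ![(g a : ℚ), (t : ℚ)] x) F ≠ 0) ∧
        ∀ u v : ℚ, u < v → ∃ t : ℚ, u < t ∧ t < v ∧ ∀ x : Fin n → ℚ,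
          MvPolynomial.aeval (Sum.elim ![(g a : ℚ), t] x) F ≠ 0) ∧
    -- no algorithm decides the sentences `∀ t, ∃ x, F(a, t, x) = 0`
    ¬ ComputablePred (fun a : ℕ => ∀ t : ℚ, ∃ x : Fin n → ℚ,
      MvPolynomial.aeval (Sum.elim ![(a : ℚ), t] x) F = 0) := by
  obtain ⟨n, F, hF, h⟩ := Pool.Agent.TH588.UQ.main
  have key : ∀ P : ℕ → Prop, REPred P → ∃ g : ℕ → ℕ, Computable g ∧
      (∀ a : ℕ, P a ↔ ∃ t : ℚ, ∀ x : Fin n → ℚ,
        MvPolynomial.aeval (Sum.elim ![(g a : ℚ), t] x) F ≠ 0) ∧
      ∀ a : ℕ, P a →
        (∃ t : ℕ, Squarefree t ∧ ∀ x : Fin n → ℚ,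
          MvPolynomial.aeval (Sum.elim ![(g a : ℚ), (t : ℚ)] x) F ≠ 0) ∧
        ∀ u v : ℚ, u < v → ∃ t : ℚ, u < t ∧ t < v ∧ ∀ x : Fin n → ℚ,
          MvPolynomial.aeval (Sum.elim ![(g a : ℚ), t] x) F ≠ 0 := by
    intro P hP
    obtain ⟨g, hg, hgP⟩ := h P hP
    refine ⟨g, hg, fun a => ⟨fun ha => ?_, fun ⟨t, ht⟩ => ?_⟩, fun a ha => (hgP a).2 ha⟩
    · obtain ⟨⟨t, -, ht⟩, -⟩ := (hgP a).2 ha
      exact ⟨t, ht⟩
    · by_contra ha
      obtain ⟨x, hx⟩ := (hgP a).1 ha t
      exact ht x hx
  refine ⟨n, F, hF, key, fun hc => ?_⟩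
  obtain ⟨g, hg, hgP, -⟩ := key _ re_halt
  apply not_computable
  have h1 := (ComputablePred.computable_of_manyOneReducible
    (ManyOneReducible.mk (f := g) _ hg) hc).not
  refine h1.of_eq fun a => ?_
  rw [hgP a]
  push Not
  rfl

end Pool.Agent.Results.MP_28f2cb_lc.OneUniversalQuantifier
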